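import Pool.Agent.Helper91.MC9.Spec

set_option autoImplicit false

namespace Pool.Agent.Helper43.MC9.FEK

open SimpleGraph Filter Topology Pool.Agent.Helper91.MC9

theorem main : S_FEK := by
  intro f C hC hf
  have hsub : Subadditive (fun n => -(f n : ℝ)) := by
    intro a b
    have h := hf a b
    have h' : (f a : ℝ) + f b ≤ f (a + b) := by exact_mod_cast h
    show -(f (a + b) : ℝ) ≤ -(f a : ℝ) + -(f b : ℝ)
    linarith
  have hbdd : BddBelow (Set.range fun n : ℕ => -(f n : ℝ) / n) := by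
    refine ⟨-(C : ℝ), ?_⟩
    rintro _ ⟨n, rfl⟩
    show -(C : ℝ) ≤ -(f n : ℝ) / n
    rcases Nat.eq_zero_or_pos n with rfl | hn
    · simp
    · rw [le_div_iff₀ (by exact_mod_cast hn)]
      have h : (f n : ℝ) ≤ C * n := by exact_mod_cast hC n
      linarith
  refine ⟨-hsub.lim, ?_⟩
  have h := (hsub.tendsto_lim hbdd).neg
  refine h.congr fun n => ?_
  show -(-(f n : ℝ) / n) = (f n : ℝ) / n
  ring

end Pool.Agent.Helper43.MC9.FEK
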