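import Pool.Agent.Helper91.MC9.Spec

set_option autoImplicit false

namespace Pool.Agent.Helper43.MC9.STEP

open SimpleGraph Filter Topology Pool.Agent.Helper91.MC9

theorem main (hEMB : S_EMB) (hCLQ : S_CLQ) (hSAT : S_SAT) (hESET : S_ESET) (hSUMF : S_SUMF)
    (hNBR : S_NBR) : S_STEP := by
  intro ℋ hS hC
  obtain ⟨h, hh⟩ := hCLQ ℋ hS.1
  refine ⟨h, fun n => ?_⟩
  obtain ⟨hbot, hE⟩ := hESET ℋ hS
  obtain ⟨-, -, -, hmin, -⟩ := hE n
  obtain ⟨V, hV, G, hcard, hG, hedge⟩ := hmin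
  have hfree : Free ℋ (G ⊕g (⊥ : SimpleGraph Unit)) := hSUMF ℋ hC _ _ _ _ hG.1 (hbot Unit)
  obtain ⟨G', hle, hG'⟩ := hSAT ℋ (V ⊕ Unit) _ hfree
  have hin : ∀ x y : V, G.Adj x y → G'.Adj (Sum.inl x) (Sum.inl y) := fun x y hxy =>
    hle (by simpa using hxy)
  have h1 : ∀ x y : V, G'.Adj (Sum.inl x) (Sum.inl y) → G.Adj x y := by
    intro x y hxy
    by_contra hn
    have hne : x ≠ y := by
      rintro rfl
      exact G'.loopless.irrefl _ hxy
    refine hG.2 x y hne hn ?_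
    intro H hH hm
    refine hG'.1 H hH (hEMB _ _ _ H.2 (G ⊔ edge x y) G' Sum.inl Sum.inl_injective ?_ hm)
    intro a b hab
    rw [sup_adj, edge_adj] at hab
    rcases hab with hab | ⟨(⟨rfl, rfl⟩ | ⟨rfl, rfl⟩), -⟩
    · exact hin a b hab
    · exact hxy
    · exact hxy.symm
  have hclq : G.IsClique {x : V | G'.Adj (Sum.inl x) (Sum.inr ())} := by
    intro x hx y hy hxy
    refine hNBR ℋ V (V ⊕ Unit) G G' hG hG'.1 Sum.inl Sum.inl_injective hin {Sum.inr ()} ?_ ?_ x y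
      hxy ⟨_, rfl, hx⟩ ⟨_, rfl, hy⟩
    · exact SimpleGraph.Connected.of_subsingleton
    · intro z hz
      simp at hz
  have hcnt : {x : V | G'.Adj (Sum.inl x) (Sum.inr ())}.ncard ≤ h := hh V G hG.1 _ hclq
  have hsub : G'.edgeSet ⊆ (Sym2.map Sum.inl '' G.edgeSet) ∪
      ((fun x : V => s(Sum.inl x, Sum.inr ())) '' {x : V | G'.Adj (Sum.inl x) (Sum.inr ())}) := by
    intro e
    induction e with
    | h a b =>
      intro hab
      rw [mem_edgeSet] at hab
      rcases a with a | a <;> rcases b with b | b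
      · left
        exact ⟨s(a, b), h1 a b hab, rfl⟩
      · right
        exact ⟨a, hab, rfl⟩
      · right
        exact ⟨b, hab.symm, Sym2.eq_swap⟩
      · exact absurd hab (G'.loopless.irrefl _)
  have hfin : (G.edgeSet).Finite := Set.toFinite _
  have hfin2 : {x : V | G'.Adj (Sum.inl x) (Sum.inr ())}.Finite := Set.toFinite _
  have hle2 : G'.edgeSet.ncard ≤ G.edgeSet.ncard + h := by
    refine (Set.ncard_le_ncard hsub ((hfin.image _).union (hfin2.image _))).trans ?_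
    refine (Set.ncard_union_le _ _).trans (add_le_add (Set.ncard_image_le hfin) ?_)
    exact (Set.ncard_image_le hfin2).trans hcnt
  have hmem : G'.edgeSet.ncard ∈ Eset ℋ (n + 1) :=
    ⟨V ⊕ Unit, inferInstance, G', by rw [Nat.card_sum, hcard]; simp, hG', rfl⟩
  rw [hedge] at hle2
  exact (Nat.sInf_le hmem).trans hle2

end Pool.Agent.Helper43.MC9.STEP
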